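import Pool.Agent.Helper58.Bil.LinkDefs

/-!
BIL-CCSG (MP_190632_an): the two scaled mirror functions `cc` and `sg`.
-/

set_option autoImplicit false

namespace Pool.Agent.Helper58.Bil

open Real Set Filter Topology

theorem ccsg_ana_div (f : ℝ → ℝ) (hf : ∀ x, AnalyticAt ℝ f x) (h0 : f 0 = 0) :
    ∃ g : ℝ → ℝ, (∀ x, AnalyticAt ℝ g x) ∧ ∀ x, f x = x * g x := by
  refine ⟨dslope f 0, fun x => ?_, fun x => ?_⟩
  · by_cases hx : x = 0
    · subst hx
      obtain ⟨p, hp⟩ := hf 0
      exact ⟨_, hp.has_fpower_series_dslope_fslope⟩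
    · have h1 : AnalyticAt ℝ (fun y : ℝ => y⁻¹ * (f y - f 0)) x :=
        (analyticAt_id.inv hx).mul ((hf x).sub analyticAt_const)
      refine h1.congr ?_
      filter_upwards [eventually_ne_nhds hx] with y hy
      rw [dslope_of_ne _ hy, slope_def_field]
      field_simp
      ring
  · have := sub_smul_dslope f 0 x
    simp only [smul_eq_mul, sub_zero, h0] at this
    exact this.symm

/-- The entire functions used: `sin u = u (1 + u ^ 2 T u)`, `cos u - 1 = u ^ 2 C u`. -/
theorem ccsg_funs : ∃ C T : ℝ → ℝ, (∀ x, AnalyticAt ℝ C x) ∧ (∀ x, AnalyticAt ℝ T x) ∧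
    (∀ u, sin u = u * (1 + u ^ 2 * T u)) ∧ (∀ u, cos u = 1 + u ^ 2 * C u) ∧
    C 0 = -(1 / 2) ∧ HasDerivAt C 0 0 ∧ T 0 = -(1 / 6) := by
  have hS : ∀ x, AnalyticAt ℝ sin x := fun x => analyticAt_sin
  obtain ⟨S, hSa, hS1⟩ := ccsg_ana_div sin (fun x => analyticAt_sin) sin_zero
  have hSd : ∀ x, HasDerivAt S (deriv S x) x := fun x => (hSa x).differentiableAt.hasDerivAt
  have hS0 : S 0 = 1 := by
    have h1 : HasDerivAt (fun x => x * S x) (1 * S 0 + 0 * deriv S 0) 0 :=
      (hasDerivAt_id (0 : ℝ)).mul (hSd 0)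
    have h2 : HasDerivAt (fun x => x * S x) (cos 0) 0 := by
      have : (fun x => x * S x) = sin := by
        funext x; exact (hS1 x).symm
      rw [this]
      exact hasDerivAt_sin 0
    have := h1.unique h2
    simpa using this
  have hSe : ∀ x, S (-x) = S x := by
    intro x
    by_cases hx : x = 0
    · rw [hx, neg_zero]
    · have h1 := hS1 x
      have h2 := hS1 (-x)
      rw [sin_neg, h1] at h2
      have : x * (S (-x) - S x) = 0 := by linarith
      rcases mul_eq_zero.1 this with h | h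
      · exact absurd h hx
      · linarith
  have hS'0 : HasDerivAt S 0 0 := by
    have h1 := hSd 0
    have h2 : HasDerivAt (fun x => S (-x)) (deriv S 0 * (-1)) 0 := by
      have h3 : HasDerivAt S (deriv S 0) (-0) := by rw [neg_zero]; exact hSd 0
      exact h3.comp (0 : ℝ) (hasDerivAt_neg 0)
    have h4 : (fun x => S (-x)) = S := funext hSe
    rw [h4] at h2
    have h5 := h1.unique h2
    have h6 : deriv S 0 = 0 := by linarith
    rw [h6] at h1
    exact h1
  obtain ⟨R, hRa, hR1⟩ := ccsg_ana_div (fun x => S x - 1)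
    (fun x => (hSa x).sub analyticAt_const) (by simp [hS0])
  have hRd : ∀ x, HasDerivAt R (deriv R x) x := fun x => (hRa x).differentiableAt.hasDerivAt
  have hR0 : R 0 = 0 := by
    have h1 : HasDerivAt (fun x => x * R x) (1 * R 0 + 0 * deriv R 0) 0 :=
      (hasDerivAt_id (0 : ℝ)).mul (hRd 0)
    have h2 : HasDerivAt (fun x => x * R x) 0 0 := by
      have : (fun x => x * R x) = fun x => S x - 1 := by
        funext x; exact (hR1 x).symm
      rw [this]
      exact hS'0.sub_const 1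
    have := h1.unique h2
    simpa using this
  obtain ⟨T, hTa, hT1⟩ := ccsg_ana_div R hRa hR0
  have hTd : ∀ x, HasDerivAt T (deriv T x) x := fun x => (hTa x).differentiableAt.hasDerivAt
  have hsin : ∀ u, sin u = u * (1 + u ^ 2 * T u) := by
    intro u
    have h1 := hS1 u
    have h2 := hR1 u
    have h3 := hT1 u
    rw [h3] at h2
    have h4 : S u = 1 + u * (u * T u) := by linarith [h2]
    rw [h1, h4]
    ring
  have hcos : ∀ u, cos u = 1 + u ^ 2 * (-(1 / 2) * S (u / 2) ^ 2) := by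
    intro u
    have h1 : cos u = cos (2 * (u / 2)) := by congr 1; ring
    rw [h1, cos_two_mul, cos_sq', hS1 (u / 2)]
    ring
  refine ⟨fun u => -(1 / 2) * S (u / 2) ^ 2, T, fun x => ?_, hTa, hsin, hcos, ?_, ?_, ?_⟩
  · have h1 : AnalyticAt ℝ (fun u : ℝ => S (u / 2)) x :=
      AnalyticAt.fun_comp (hSa (x / 2)) (by
        have : (fun u : ℝ => u / 2) = fun u => u * (1 / 2) := by funext u; ring
        rw [this]
        exact analyticAt_id.mul analyticAt_const)
    exact analyticAt_const.mul (h1.pow 2)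
  · simp [hS0]
  · have h1 : HasDerivAt (fun u : ℝ => S (u / 2)) (0 * (1 / 2)) 0 := by
      have h3 : HasDerivAt S 0 ((fun u : ℝ => u / 2) 0) := by simpa using hS'0
      have h4 : HasDerivAt (fun u : ℝ => u / 2) (1 / 2) 0 := (hasDerivAt_id (0 : ℝ)).div_const 2
      exact h3.comp (0 : ℝ) h4
    have h2 := (h1.pow 2).const_mul (-(1 / 2) : ℝ)
    refine HasDerivAt.congr_deriv h2 ?_
    simp
  · -- differentiate `sin u = u + u ^ 3 T u`
    have h1 : ∀ u : ℝ, cos u = 1 + 3 * u ^ 2 * T u + u ^ 3 * deriv T u := by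
      intro u
      have e1 : HasDerivAt (fun x : ℝ => x + x ^ 3 * T x)
          (1 + ((3 * u ^ 2) * T u + u ^ 3 * deriv T u)) u := by
        have e3 : HasDerivAt (fun x : ℝ => x ^ 3) (3 * u ^ 2) u := by
          simpa using hasDerivAt_pow 3 u
        exact (hasDerivAt_id u).add (e3.mul (hTd u))
      have e2 : (fun x : ℝ => x + x ^ 3 * T x) = sin := by
        funext x
        rw [hsin x]
        ring
      rw [e2] at e1
      have := (hasDerivAt_sin u).unique e1
      linarith
    have h2 : ∀ u : ℝ, u ≠ 0 → -(1 / 2) * S (u / 2) ^ 2 - (3 * T u + u * deriv T u) = 0 := by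
      intro u hu
      have h3 := h1 u
      rw [hcos u] at h3
      have h4 : u ^ 2 * (-(1 / 2) * S (u / 2) ^ 2 - (3 * T u + u * deriv T u)) = 0 := by
        linarith
      rcases mul_eq_zero.1 h4 with h | h
      · exact absurd (pow_eq_zero_iff (two_ne_zero) |>.1 h) hu
      · exact h
    have hcT : Continuous T := continuous_iff_continuousAt.2 fun x => (hTa x).continuousAt
    have hcS : Continuous S := continuous_iff_continuousAt.2 fun x => (hSa x).continuousAt
    have hcT' : Continuous (deriv T) := continuous_iff_continuousAt.2 fun x =>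
      (hTa x).deriv.continuousAt
    have hc : Continuous (fun u : ℝ => -(1 / 2) * S (u / 2) ^ 2 - (3 * T u + u * deriv T u)) := by
      fun_prop
    have h5 : (fun u : ℝ => -(1 / 2) * S (u / 2) ^ 2 - (3 * T u + u * deriv T u)) =
        fun _ => 0 := by
      have hd : Dense {(0 : ℝ)}ᶜ := dense_compl_singleton 0
      exact hc.ext_on hd continuous_const (fun u hu => h2 u hu)
    have h6 := congrFun h5 0
    simp only [zero_div, hS0, zero_mul] at h6
    linarith

/-- closed formula for `cc` and `sg` -/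
theorem ccsg_formula : ∃ C T : ℝ → ℝ, (∀ x, AnalyticAt ℝ C x) ∧ (∀ x, AnalyticAt ℝ T x) ∧
    C 0 = -(1 / 2) ∧ HasDerivAt C 0 0 ∧ T 0 = -(1 / 6) ∧
    (∀ α : ℝ, cos α ≠ 0 → ∀ t D e : ℝ,
      cc α t D e = t * D ^ 2 * C (t * D) - tan α * (D * (1 + (t * D) ^ 2 * T (t * D)))
        + t * e * cos (α + t * D)) ∧
    (∀ α : ℝ, cos α ≠ 0 → ∀ t D e : ℝ,
      sg α t D e = 2 * tan α * (D ^ 2 * C (t * D)) + 2 * (t * D ^ 3 * T (t * D))
        + 2 * e * sin (α + t * D)) := by
  obtain ⟨C, T, hC, hT, hs, hc, hC0, hC', hT0⟩ := ccsg_funs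
  refine ⟨C, T, hC, hT, hC0, hC', hT0, fun α hα t D e => ?_, fun α hα t D e => ?_⟩
  · unfold cc
    split_ifs with ht
    · subst ht
      simp
    · have h1 : cos (α + t * D) = cos α * cos (t * D) - sin α * sin (t * D) := cos_add _ _
      have h2 : (1 / cos α + t ^ 2 * e) * cos (α + t * D) =
          cos (t * D) - tan α * sin (t * D) + t ^ 2 * e * cos (α + t * D) := by
        have h3 : 1 / cos α * cos (α + t * D) = cos (t * D) - tan α * sin (t * D) := by
          rw [h1, tan_eq_sin_div_cos]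
          field_simp
        rw [add_mul, h3]
      rw [h2, hs (t * D), hc (t * D)]
      field_simp
      ring
  · unfold sg
    split_ifs with ht
    · subst ht
      simp only [zero_mul, hC0, add_zero]
      ring
    · have h1 : sin (α + t * D) = sin α * cos (t * D) + cos α * sin (t * D) := sin_add _ _
      have h2 : (1 / cos α + t ^ 2 * e) * sin (α + t * D) =
          tan α * cos (t * D) + sin (t * D) + t ^ 2 * e * sin (α + t * D) := by
        have h3 : 1 / cos α * sin (α + t * D) = tan α * cos (t * D) + sin (t * D) := by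
          rw [h1, tan_eq_sin_div_cos]
          field_simp
        rw [add_mul, h3]
      have h4 : 2 * (1 / cos α + t ^ 2 * e) * sin (α + t * D) - 2 * (t * D) - 2 * tan α =
          2 * (tan α * cos (t * D) + sin (t * D) + t ^ 2 * e * sin (α + t * D))
            - 2 * (t * D) - 2 * tan α := by
        rw [← h2]; ring
      rw [h4, hs (t * D), hc (t * D)]
      field_simp
      ring

theorem cc_smooth (α : ℝ) (hα : cos α ≠ 0) : ContDiff ℝ ((⊤ : ℕ∞) : WithTop ℕ∞)
    (fun z : ℝ × ℝ × ℝ => cc α z.1 z.2.1 z.2.2) := by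
  obtain ⟨C, T, hC, hT, hC0, hC', hT0, h1, h2⟩ := ccsg_formula
  have hCs : ContDiff ℝ ((⊤ : ℕ∞) : WithTop ℕ∞) C :=
    contDiff_iff_contDiffAt.2 fun x => (hC x).contDiffAt
  have hTs : ContDiff ℝ ((⊤ : ℕ∞) : WithTop ℕ∞) T :=
    contDiff_iff_contDiffAt.2 fun x => (hT x).contDiffAt
  simp only [h1 α hα]
  fun_prop

theorem sg_smooth (α : ℝ) (hα : cos α ≠ 0) : ContDiff ℝ ((⊤ : ℕ∞) : WithTop ℕ∞)
    (fun z : ℝ × ℝ × ℝ => sg α z.1 z.2.1 z.2.2) := by
  obtain ⟨C, T, hC, hT, hC0, hC', hT0, h1, h2⟩ := ccsg_formula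
  have hCs : ContDiff ℝ ((⊤ : ℕ∞) : WithTop ℕ∞) C :=
    contDiff_iff_contDiffAt.2 fun x => (hC x).contDiffAt
  have hTs : ContDiff ℝ ((⊤ : ℕ∞) : WithTop ℕ∞) T :=
    contDiff_iff_contDiffAt.2 fun x => (hT x).contDiffAt
  simp only [h2 α hα]
  fun_prop

theorem sg_add (α t D e : ℝ) : sg α t D e = sg α t D 0 + 2 * e * sin (α + t * D) := by
  unfold sg
  split_ifs with ht
  · subst ht
    simp only [zero_mul, add_zero]
    ring
  · field_simp
    ring

theorem cc_zero (α D e : ℝ) : cc α 0 D e = -(tan α * D) := by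
  simp [cc]

theorem sg_zero (α D e : ℝ) : sg α 0 D e = 2 * e * sin α - tan α * D ^ 2 := by
  simp [sg]

/-- first order in `t` along a curve `t ↦ (D t, e t)`. -/
theorem cc_hasDerivAt (α : ℝ) (hα : cos α ≠ 0) {D e : ℝ → ℝ} {D' : ℝ} (hD : HasDerivAt D D' 0)
    (he : ContinuousAt e 0) :
    HasDerivAt (fun t => cc α t (D t) (e t)) (-(tan α * D') - D 0 ^ 2 / 2 + e 0 * cos α) 0 := by
  obtain ⟨C, T, hC, hT, hC0, hC', hT0, h1, h2⟩ := ccsg_formula
  simp only [h1 α hα]
  -- the argument `t D(t)`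
  have hu : HasDerivAt (fun t : ℝ => t * D t) (1 * D 0 + 0 * D') 0 :=
    (hasDerivAt_id (0 : ℝ)).mul hD
  have hu' : HasDerivAt (fun t : ℝ => t * D t) (D 0) 0 := by simpa using hu
  have hTd : HasDerivAt T (deriv T 0) 0 := (hT 0).differentiableAt.hasDerivAt
  have hCu : HasDerivAt (fun t : ℝ => C (t * D t)) (0 * D 0) 0 := by
    have h3 : HasDerivAt C 0 ((fun t : ℝ => t * D t) 0) := by simpa using hC'
    exact h3.comp (0 : ℝ) hu'
  have hTu : HasDerivAt (fun t : ℝ => T (t * D t)) (deriv T 0 * D 0) 0 := by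
    have h3 : HasDerivAt T (deriv T 0) ((fun t : ℝ => t * D t) 0) := by simpa using hTd
    exact h3.comp (0 : ℝ) hu'
  have hA : HasDerivAt (fun t : ℝ => t * D t ^ 2 * C (t * D t)) (-(D 0 ^ 2 / 2)) 0 := by
    have h3 := (((hasDerivAt_id (0 : ℝ)).mul (hD.pow 2)).mul hCu)
    refine HasDerivAt.congr_deriv h3 ?_
    simp [hC0]
    ring
  have hB : HasDerivAt (fun t : ℝ => tan α * (D t * (1 + (t * D t) ^ 2 * T (t * D t))))
      (tan α * D') 0 := by
    have h3 := (hD.mul (((hu'.pow 2).mul hTu).const_add 1)).const_mul (tan α)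
    refine HasDerivAt.congr_deriv h3 ?_
    simp
  have hE : HasDerivAt (fun t : ℝ => t * e t * cos (α + t * D t)) (e 0 * cos α) 0 := by
    have h3 : ContinuousAt (fun t : ℝ => e t * cos (α + t * D t)) 0 :=
      he.mul (continuous_cos.continuousAt.comp
        (continuousAt_const.add hu'.continuousAt))
    have h4 : HasDerivAt (fun t : ℝ => t * (e t * cos (α + t * D t)))
        (e 0 * cos (α + 0 * D 0)) 0 := by
      rw [hasDerivAt_iff_tendsto_slope]
      have h5 : Tendsto (fun t : ℝ => e t * cos (α + t * D t)) (𝓝[≠] 0)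
          (𝓝 (e 0 * cos (α + 0 * D 0))) := h3.tendsto.mono_left nhdsWithin_le_nhds
      refine h5.congr' ?_
      filter_upwards [self_mem_nhdsWithin] with t ht
      have ht' : t ≠ 0 := ht
      rw [slope_def_field]
      field_simp
      ring
    have h5 : (fun t : ℝ => t * e t * cos (α + t * D t)) =
        fun t : ℝ => t * (e t * cos (α + t * D t)) := by
      funext t; ring
    rw [h5]
    simpa using h4
  have := (hA.sub hB).add hE
  refine HasDerivAt.congr_deriv this ?_
  ring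

theorem sg_hasDerivAt (α : ℝ) (hα : cos α ≠ 0) {D e : ℝ → ℝ} {D' e' : ℝ}
    (hD : HasDerivAt D D' 0) (he : HasDerivAt e e' 0) :
    HasDerivAt (fun t => sg α t (D t) (e t))
      (2 * e' * sin α - 2 * tan α * D 0 * D' - D 0 ^ 3 / 3 + 2 * e 0 * D 0 * cos α) 0 := by
  obtain ⟨C, T, hC, hT, hC0, hC', hT0, h1, h2⟩ := ccsg_formula
  simp only [h2 α hα]
  have hu : HasDerivAt (fun t : ℝ => t * D t) (1 * D 0 + 0 * D') 0 :=
    (hasDerivAt_id (0 : ℝ)).mul hD
  have hu' : HasDerivAt (fun t : ℝ => t * D t) (D 0) 0 := by simpa using hu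
  have hTd : HasDerivAt T (deriv T 0) 0 := (hT 0).differentiableAt.hasDerivAt
  have hCu : HasDerivAt (fun t : ℝ => C (t * D t)) (0 * D 0) 0 := by
    have h3 : HasDerivAt C 0 ((fun t : ℝ => t * D t) 0) := by simpa using hC'
    exact h3.comp (0 : ℝ) hu'
  have hTu : HasDerivAt (fun t : ℝ => T (t * D t)) (deriv T 0 * D 0) 0 := by
    have h3 : HasDerivAt T (deriv T 0) ((fun t : ℝ => t * D t) 0) := by simpa using hTd
    exact h3.comp (0 : ℝ) hu'
  have hA : HasDerivAt (fun t : ℝ => 2 * tan α * (D t ^ 2 * C (t * D t)))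
      (-(2 * tan α * D 0 * D')) 0 := by
    have h3 := ((hD.pow 2).mul hCu).const_mul (2 * tan α)
    refine HasDerivAt.congr_deriv h3 ?_
    simp [hC0]
    ring
  have hB : HasDerivAt (fun t : ℝ => 2 * (t * D t ^ 3 * T (t * D t))) (-(D 0 ^ 3 / 3)) 0 := by
    have h3 := ((((hasDerivAt_id (0 : ℝ)).mul (hD.pow 3)).mul hTu)).const_mul 2
    refine HasDerivAt.congr_deriv h3 ?_
    simp [hT0]
    ring
  have hE : HasDerivAt (fun t : ℝ => 2 * e t * sin (α + t * D t))
      (2 * e' * sin α + 2 * e 0 * D 0 * cos α) 0 := by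
    have h3 : HasDerivAt (fun t : ℝ => α + t * D t) (D 0) 0 := hu'.const_add α
    have h4 := (he.const_mul 2).mul h3.sin
    refine HasDerivAt.congr_deriv h4 ?_
    simp
    ring
  have := (hA.add hB).add hE
  refine HasDerivAt.congr_deriv this ?_
  ring

/-- unscaled meaning: `d = α + t D`, `E = 1/cos α + t ^ 2 e`. -/
theorem cc_unscaled (α t D e : ℝ) (hα : cos α ≠ 0) :
    1 + t * cc α t D e = (1 / cos α + t ^ 2 * e) * cos (α + t * D) := by
  unfold cc
  split_ifs with ht
  · subst ht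
    field_simp
    simp
  · field_simp
    ring

theorem sg_unscaled (α t D e : ℝ) (hα : cos α ≠ 0) :
    t ^ 2 * sg α t D e
      = 2 * (1 / cos α + t ^ 2 * e) * sin (α + t * D) - 2 * (t * D) - 2 * tan α := by
  unfold sg
  split_ifs with ht
  · subst ht
    rw [tan_eq_sin_div_cos]
    field_simp
    simp
  · field_simp

end Pool.Agent.Helper58.Bil
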